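import Pool.Agent.SZT.StmtsB

set_option autoImplicit false

open Polynomial

namespace Pool.Agent.SZT.H16

open Pool.Agent.SZT Pool.Agent.SZT.B

theorem eval_reflect {L : Type} [Field L] {a : L} (ha : a ≠ 0) (N : ℕ) (p : L[X])
    (hp : p.natDegree ≤ N) : (reflect N p).eval a⁻¹ * a ^ N = p.eval a := by
  letI : Invertible a := invertibleOfNonzero ha
  have h := eval₂_reflect_mul_pow (RingHom.id L) a N p hp
  rw [invOf_eq_inv] at h
  exact h

theorem reflect_pow' {L : Type} [Field L] (N : ℕ) (p : L[X]) (hp : p.natDegree ≤ N) (k : ℕ) :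
    reflect (k * N) (p ^ k) = (reflect N p) ^ k := by
  induction k with
  | zero => simp
  | succ k ih =>
    have h1 : (k + 1) * N = k * N + N := by ring
    rw [h1, pow_succ, reflect_mul _ _ (natDegree_pow_le_of_le k hp) hp, ih, pow_succ]

theorem pint_reflect {L : Type} [NormedField L] {p : L[X]} (hp : PInt p) (N : ℕ) :
    PInt (reflect N p) := by
  intro i
  rw [coeff_reflect]
  exact hp _

theorem pint_derivative {L : Type} [NormedField L] [IsUltrametricDist L] {p : L[X]}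
    (hp : PInt p) : PInt (derivative p) := by
  intro i
  rw [coeff_derivative, norm_mul]
  have h : ‖((i : L) + 1)‖ ≤ 1 := by
    have h2 := IsUltrametricDist.norm_natCast_le_one L (i + 1)
    rw [Nat.cast_add, Nat.cast_one] at h2
    exact h2
  exact mul_le_one₀ (hp _) (norm_nonneg _) h

theorem norm_eval_le' {L : Type} [NormedField L] [IsUltrametricDist L] {p : L[X]} (hp : PInt p)
    {a : L} (ha : ‖a‖ ≤ 1) : ‖p.eval a‖ ≤ 1 := by
  rw [eval_eq_sum_range]
  apply IsUltrametricDist.norm_sum_le_of_forall_le_of_nonneg zero_le_one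
  intro i _
  rw [norm_mul, norm_pow]
  exact mul_le_one₀ (hp i) (pow_nonneg (norm_nonneg _) _) (pow_le_one₀ (norm_nonneg _) ha)

theorem eval_sub_coeff {L : Type} [NormedField L] [IsUltrametricDist L] {p : L[X]} (hp : PInt p)
    {t : L} (ht : ‖t‖ ≤ 1) : ‖p.eval t - p.coeff 0‖ ≤ ‖t‖ := by
  have h1 : p.eval t = (divX p).eval t * t + p.coeff 0 := by
    conv_lhs => rw [← divX_mul_X_add p]
    rw [eval_add, eval_mul, eval_X, eval_C]
  have h2 : PInt (divX p) := by
    intro i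
    rw [coeff_divX]
    exact hp _
  rw [h1, add_sub_cancel_right, norm_mul]
  exact mul_le_of_le_one_left (norm_nonneg _) (norm_eval_le' h2 ht)

/-- a number which differs from `1` by less than `1` has norm `1` -/
theorem norm_eq_one_of {L : Type} [NormedField L] [IsUltrametricDist L] {x : L}
    (h : ‖x - 1‖ < 1) : ‖x‖ = 1 := by
  have h1 : x = 1 + (x - 1) := by ring
  rw [h1, IsUltrametricDist.norm_add_eq_max_of_norm_ne_norm (by rw [norm_one]; exact h.ne'),
    norm_one, max_eq_left h.le]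

/-- **Row INF**. -/
theorem inf (hNOD : NodStmt) (hSCH : SchStmt) : InfStmt := by
  intro L _ _ f θ α β A κ a y m hN hα hβ hA hκ hrel hAa ha hy h0 hne
  obtain ⟨-, -, -, ⟨hf, hfm, hfd⟩, -, -⟩ := hNOD L f θ hN
  have ha0 : a ≠ 0 := by
    intro h
    rw [h, norm_zero] at ha
    linarith
  have hna : 0 < ‖a‖ := by linarith
  -- the norm of `f(a)`
  have hfa : ‖f.eval a‖ = ‖a‖ ^ 5 := by
    rw [hN.fac, eval_prod, norm_prod]
    have h1 : ∀ i : Fin 5, ‖(X - C (θ i)).eval a‖ = ‖a‖ := by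
      intro i
      rw [eval_sub, eval_X, eval_C, sub_eq_add_neg,
        IsUltrametricDist.norm_add_eq_max_of_norm_ne_norm, norm_neg, max_eq_left]
      · exact (hN.int i).trans ha.le
      · rw [norm_neg]
        exact (lt_of_le_of_lt (hN.int i) ha).ne'
    rw [Finset.prod_congr rfl (fun i _ => h1 i), Finset.prod_const, Finset.card_univ,
      Fintype.card_fin]
  have hy2 : ‖y‖ ^ 2 = ‖a‖ ^ 5 := by rw [← norm_pow, hy, hfa]
  refine ⟨hy2, ?_⟩
  -- degrees
  obtain ⟨d, hd⟩ : ∃ d, d = A.natDegree := ⟨_, rfl⟩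
  obtain ⟨D, hD⟩ : ∃ D, D = m * d := ⟨_, rfl⟩
  have hdpos : 1 ≤ d := by
    rw [hd]
    by_contra hc
    have h1 : A.natDegree = 0 := by omega
    have h2 : A = 1 := hA.natDegree_eq_zero.mp h1
    rw [h2, eval_one] at hAa
    exact one_ne_zero hAa
  have hβ0 : β ≠ 0 := by
    intro h
    apply hne
    rw [h, eval_zero, zero_mul] at h0 ⊢
    rw [add_zero] at h0
    rw [h0, sub_zero]
  have hdeg := (H58Q.natDegree_norm_le_iff (f := f) (g := 2) (by rw [hfd])
    (⟨α, β⟩ : H58Q.Q L f) (2 * D)).mp (by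
      rw [H58Q.norm_eq]
      show (α ^ 2 - f * β ^ 2).natDegree ≤ 2 * D
      rw [hrel]
      refine (natDegree_C_mul_le _ _).trans ?_
      refine (natDegree_pow_le).trans ?_
      rw [← hd, hD]
      exact le_of_eq (by ring))
  obtain ⟨hdα, hdβ⟩ := hdeg
  have hdα' : 2 * α.natDegree ≤ 2 * D := hdα
  have hdβ' : 2 * β.natDegree + 5 ≤ 2 * D := by
    rcases hdβ with h | h
    · exact absurd h hβ0
    · exact h
  have hD3 : 3 ≤ D := by omega
  obtain ⟨E, hE⟩ : ∃ E, D = E + 3 := ⟨D - 3, by omega⟩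
  have hαD : α.natDegree ≤ D := by omega
  have hβE : β.natDegree ≤ E := by omega
  have hf6 : f.natDegree ≤ 6 := by omega
  -- the reflected relation
  have hrel' : (reflect D α) ^ 2 - reflect 6 f * (reflect E β) ^ 2
      = C κ * (reflect d A) ^ (2 * m) := by
    have h1 := congrArg (reflect (2 * D)) hrel
    rw [reflect_sub, reflect_pow' D α hαD, reflect_C_mul] at h1
    have h2 : 2 * D = 6 + 2 * E := by omega
    have h3 : reflect (2 * D) (f * β ^ 2) = reflect 6 f * (reflect E β) ^ 2 := by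
      rw [h2, reflect_mul _ _ hf6 (natDegree_pow_le_of_le 2 hβE), reflect_pow' E β hβE]
    have h4 : reflect (2 * D) (A ^ (2 * m)) = (reflect d A) ^ (2 * m) := by
      have h5 : 2 * D = (2 * m) * d := by rw [hD]; ring
      rw [h5, reflect_pow' d A hd.ge]
    rw [h3, h4] at h1
    exact h1
  -- the point
  have ht : ‖a⁻¹‖ < 1 := by
    rw [norm_inv]
    exact inv_lt_one_of_one_lt₀ ha
  have e1 := eval_reflect ha0 D α hαD
  have e2 := eval_reflect ha0 E β hβE
  have e3 := eval_reflect ha0 6 f hf6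
  have e4 := eval_reflect ha0 d A hd.ge
  have haD : a ^ D ≠ 0 := pow_ne_zero _ ha0
  have hy0 : (y * a⁻¹ ^ 3) ^ 2 = (reflect 6 f).eval a⁻¹ := by
    have h1 : (reflect 6 f).eval a⁻¹ = f.eval a * a⁻¹ ^ 6 := by
      rw [← e3, mul_assoc, ← mul_pow, mul_inv_cancel₀ ha0, one_pow, mul_one]
    rw [h1, ← hy]
    ring
  have hA0 : (reflect d A).eval a⁻¹ = 0 := by
    rw [hAa] at e4
    rcases mul_eq_zero.mp e4 with h | h
    · exact h
    · exact absurd h (pow_ne_zero _ ha0)
  have ev : ∀ σ : L, ((reflect D α).eval a⁻¹ + σ * ((reflect E β).eval a⁻¹ * (y * a⁻¹ ^ 3))) * a ^ D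
      = α.eval a + σ * (β.eval a * y) := by
    intro σ
    rw [add_mul, e1, ← e2, hE, pow_add]
    field_simp
  have h0' : (reflect D α).eval a⁻¹ + (reflect E β).eval a⁻¹ * (y * a⁻¹ ^ 3) = 0 := by
    have h1 := ev 1
    rw [one_mul, one_mul, h0] at h1
    rcases mul_eq_zero.mp h1 with h | h
    · exact h
    · exact absurd h haD
  have hm' : ((reflect D α).eval a⁻¹ - (reflect E β).eval a⁻¹ * (y * a⁻¹ ^ 3)) * a ^ D
      = α.eval a - β.eval a * y := by
    have h1 := ev (-1)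
    linear_combination h1
  have hne' : (reflect D α).eval a⁻¹ - (reflect E β).eval a⁻¹ * (y * a⁻¹ ^ 3) ≠ 0 := by
    intro h
    apply hne
    rw [← hm', h, zero_mul]
  have hder : ‖(derivative (reflect 6 f)).eval a⁻¹‖ = 1 := by
    apply norm_eq_one_of
    have h1 : (derivative (reflect 6 f)).coeff 0 = 1 := by
      rw [coeff_derivative, coeff_reflect, revAt_le (by norm_num)]
      have h2 : f.coeff 5 = 1 := by
        have := hfm.coeff_natDegree
        rwa [hfd] at this
      have h3 : 6 - (0 + 1) = 5 := by norm_num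
      rw [h3, h2]
      simp
    have h4 := eval_sub_coeff (pint_derivative (pint_reflect hf 6)) ht.le
    rw [h1] at h4
    exact lt_of_le_of_lt h4 ht
  have hdvd : (X - C a⁻¹) ^ (2 * m) ∣ (reflect D α) ^ 2 - reflect 6 f * (reflect E β) ^ 2 := by
    rw [hrel']
    exact Dvd.dvd.mul_left (pow_dvd_pow_of_dvd (dvd_iff_isRoot.mpr hA0) _) _
  have hS := hSCH L (reflect 6 f) (reflect D α) (reflect E β) a⁻¹ (y * a⁻¹ ^ 3) (2 * m)
    (pint_reflect hf 6) (pint_reflect hα D) (pint_reflect hβ E) ht.le hy0 hdvd h0' hne'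
  rw [hder, one_pow, one_mul, norm_mul 2, hN.two, one_mul] at hS
  -- numerical part
  have hr : ‖y * a⁻¹ ^ 3‖ ^ (2 * m) * ‖a‖ ^ m = 1 := by
    rw [pow_mul, ← mul_pow]
    have h1 : ‖y * a⁻¹ ^ 3‖ ^ 2 * ‖a‖ = 1 := by
      rw [norm_mul, norm_pow, norm_inv, mul_pow, hy2]
      field_simp
    rw [h1, one_pow]
  have h6 : ‖α.eval a - β.eval a * y‖ ≤ ‖y * a⁻¹ ^ 3‖ ^ (2 * m) * ‖a‖ ^ D := by
    rw [← hm', norm_mul, norm_pow]
    exact mul_le_mul_of_nonneg_right hS (pow_nonneg hna.le _)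
  have h7 : D = m + m * (A.natDegree - 1) := by
    rw [hD, ← hd]
    obtain ⟨d', rfl⟩ : ∃ d', d = d' + 1 := ⟨d - 1, by omega⟩
    rw [Nat.add_sub_cancel]
    ring
  rw [h7, pow_add, ← mul_assoc, hr, one_mul] at h6
  exact h6

end Pool.Agent.SZT.H16
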