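import Pool.Agent.SZT.StmtsB

set_option autoImplicit false

open Polynomial

namespace Pool.Agent.SZT.H16

open Pool.Agent.SZT Pool.Agent.SZT.B

theorem norm_eval_le {L : Type} [NormedField L] [IsUltrametricDist L] {p : L[X]} (hp : PInt p)
    {a : L} (ha : ‖a‖ ≤ 1) : ‖p.eval a‖ ≤ 1 := by
  rw [eval_eq_sum_range]
  apply IsUltrametricDist.norm_sum_le_of_forall_le_of_nonneg zero_le_one
  intro i _
  rw [norm_mul, norm_pow]
  exact mul_le_one₀ (hp i) (pow_nonneg (norm_nonneg _) _) (pow_le_one₀ (norm_nonneg _) ha)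

theorem norm_sub_le_one {L : Type} [NormedField L] [IsUltrametricDist L] {x y : L}
    (hx : ‖x‖ ≤ 1) (hy : ‖y‖ ≤ 1) : ‖x - y‖ ≤ 1 := by
  rw [sub_eq_add_neg]
  exact (IsUltrametricDist.norm_add_le_max x (-y)).trans (max_le hx (by rwa [norm_neg]))

/-- **Row ORD**. -/
theorem ord (hNOD : NodStmt) (hSCH : SchStmt) : OrdStmt := by
  intro L _ _ f θ α β A κ a y M hN hα hβ hrel hA ha hae hy h0 hne
  obtain ⟨-, -, -, ⟨hf, -, -⟩, h5, -⟩ := hNOD L f θ hN
  have hfa : ‖f.eval a‖ ≤ 1 := norm_eval_le hf ha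
  have hy2 : ‖y‖ ^ 2 = ‖f.eval a‖ := by rw [← norm_pow, hy]
  rcases hfa.lt_or_eq with hlt | heq
  · have h6 := h5 a ha hae hlt
    have hdvd : (X - C a) ^ M ∣ α ^ 2 - f * β ^ 2 := by
      rw [hrel]
      exact Dvd.dvd.mul_left (pow_dvd_pow_of_dvd (dvd_iff_isRoot.mpr hA) M) _
    have h7 := hSCH L f α β a y M hf hα hβ ha hy hdvd h0 hne
    rw [h6, one_pow, one_mul, norm_mul, hN.two, one_mul] at h7
    exact h7
  · have hy1 : ‖y‖ = 1 := by
      rw [heq] at hy2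
      have := norm_nonneg y
      nlinarith
    rw [hy1, one_pow]
    apply norm_sub_le_one (norm_eval_le hα ha)
    rw [norm_mul, hy1, mul_one]
    exact norm_eval_le hβ ha

end Pool.Agent.SZT.H16
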